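import Pool.Agent.helper23.F2.All
import Pool.Agent.helper23.TH.All
import Pool.Agent.helper28.F2T.TB
import Pool.Agent.helper33.F2T.PL
import Pool.Agent.helper34.F2T.TS
import Pool.Agent.helper39.F2T.T0
import Pool.Agent.helper49.F2T.TV
import Pool.Agent.helper67.F2T.TA
import Pool.Agent.helper80.F2T.PB
import Pool.Agent.helper88.F2T.FN
import Pool.Agent.helper88.F2T.PG
import Pool.Agent.helper88.F2T.TE

/-!
MP_26dbae_co (S07735): every rational `r` in `(1, 2)` is the exponent of `f_2(n, H)` for a bipartite graph `H`.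
-/

set_option autoImplicit false

namespace Pool.Agent.F2T

open Pool.Agent.helper23.TH Pool.Agent.F2

theorem all_FN : FN_stmt :=
  FN (TS TB TE all_THM1 all_SUB) (T0 all_STAR) TA TV (PL EC PB PG) all_UB MONO ISO

end Pool.Agent.F2T
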