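import Pool.Agent.helper23.F2.Spec

set_option autoImplicit false

namespace Pool.Agent.helper23.F2

open Pool.Agent.helper23.TH Pool.Agent.F2

theorem CL10 : CL10_stmt := by
  intro t a K k c ht ha ha1 hK hk hc
  have ht' : (1 : ℝ) ≤ t := by exact_mod_cast ht
  set κ : ℝ := (t : ℝ) + 1 - a with hκ
  have hκ0 : 0 < κ := by rw [hκ]; linarith
  set M : ℝ := K * (2 * k) ^ (1 + a) / c with hM
  have hM0 : 0 < M := by rw [hM]; positivity
  refine ⟨M ^ (1 / κ), by positivity, ?_⟩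
  intro N U D hN hU hUD hD
  have hN0 : 0 < N := by linarith
  have hNk : 0 < N ^ (1 / κ) := Real.rpow_pos_of_pos hN0 _
  have hMk : 0 < M ^ (1 / κ) := Real.rpow_pos_of_pos hM0 _
  have hD0 : 0 < D := lt_of_lt_of_le (mul_pos hMk hNk) hD
  have h1 : (M ^ (1 / κ) * N ^ (1 / κ)) ^ κ ≤ D ^ κ :=
    Real.rpow_le_rpow (mul_pos hMk hNk).le hD hκ0.le
  have h2 : (M ^ (1 / κ) * N ^ (1 / κ)) ^ κ = M * N := by
    rw [Real.mul_rpow hMk.le hNk.le, ← Real.rpow_mul hM0.le, ← Real.rpow_mul hN0.le,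
      one_div_mul_cancel hκ0.ne', Real.rpow_one, Real.rpow_one]
  rw [h2] at h1
  have h3 : U ^ (1 + a) ≤ (2 * k) ^ (1 + a) * D ^ (1 + a) := by
    rw [← Real.mul_rpow (by linarith) hD0.le]
    apply Real.rpow_le_rpow hU.le _ (by linarith)
    linarith
  have h4 : D ^ κ * D ^ (1 + a) = D ^ (t + 2) := by
    rw [← Real.rpow_add hD0, ← Real.rpow_natCast D (t + 2)]
    congr 1
    rw [hκ]
    push_cast
    ring
  have h5 : K * U ^ (1 + a) * N ≤ c * D ^ (t + 2) := by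
    have hDa : 0 < D ^ (1 + a) := Real.rpow_pos_of_pos hD0 _
    calc K * U ^ (1 + a) * N ≤ K * ((2 * k) ^ (1 + a) * D ^ (1 + a)) * N := by gcongr
      _ = c * (M * N) * D ^ (1 + a) := by
          rw [hM]
          field_simp
      _ ≤ c * D ^ κ * D ^ (1 + a) := by gcongr
      _ = c * D ^ (t + 2) := by rw [mul_assoc, h4]
  rw [mul_div_assoc', le_div_iff₀ hN0]
  exact h5

end Pool.Agent.helper23.F2
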