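import Pool.Agent.helper23.F2.Spec

set_option autoImplicit false

namespace Pool.Agent.helper23.F2

open Pool.Agent.helper23.TH Pool.Agent.F2

theorem WK5 : WK5_stmt := by
  classical
  intro V L b s G t P
  have hv : ∀ i : Fin (t + 1), G.obj (fun i : Fin (t + 1) => P i.rev) (.inl i) = G.obj P (.inl i.rev) := by
    intro i
    rfl
  have he : ∀ j : Fin t, G.obj (fun i : Fin (t + 1) => P i.rev) (.inr j) = G.obj P (.inr j.rev) := by
    intro j
    simp only [LG.obj]
    rw [Fin.rev_castSucc, Fin.rev_succ, G.lsymm]
  refine ⟨?_, hv, he, ?_⟩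
  · intro h i
    have h1 := h i.rev
    simp only
    rw [Fin.rev_castSucc, Fin.rev_succ]
    exact G.symm _ _ h1
  · intro h o o' hoo
    rcases o with i | j <;> rcases o' with i' | j'
    · rw [hv, hv]
      apply h
      intro h1
      apply hoo
      rw [Sum.inl.injEq] at h1 ⊢
      exact Fin.rev_injective h1
    · rw [hv, he]
      apply h
      simp
    · rw [hv, he]
      apply h
      simp
    · rw [he, he]
      apply h
      intro h1
      apply hoo
      rw [Sum.inr.injEq] at h1 ⊢
      exact Fin.rev_injective h1

end Pool.Agent.helper23.F2
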