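import Pool.Agent.helper1.TH.GLU
import Pool.Agent.helper10.F2.AL8
import Pool.Agent.helper11.F2.CL2
import Pool.Agent.helper11.KS.RG2
import Pool.Agent.helper13.F2.MT5
import Pool.Agent.helper16.F2.WK4
import Pool.Agent.helper18.F2.CL6
import Pool.Agent.helper2.F2.SUB
import Pool.Agent.helper20.F2.AL7
import Pool.Agent.helper23.F2.CL10
import Pool.Agent.helper23.F2.WK5
import Pool.Agent.helper24.F2.AL12
import Pool.Agent.helper24.F2.AX5
import Pool.Agent.helper25.F2.AL10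
import Pool.Agent.helper28.F2.AL9
import Pool.Agent.helper33.IV.MD
import Pool.Agent.helper34.F2.STAR
import Pool.Agent.helper39.F2.AX4
import Pool.Agent.helper39.F2.CL9
import Pool.Agent.helper42.F2.THM1
import Pool.Agent.helper43.F2.MT2
import Pool.Agent.helper44.F2.MT7
import Pool.Agent.helper45.F2.CL3
import Pool.Agent.helper48.F2.WK1
import Pool.Agent.helper49.F2.MT8
import Pool.Agent.helper5.F2.AL11
import Pool.Agent.helper5.F2.CL5
import Pool.Agent.helper5.F2.MT4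
import Pool.Agent.helper50.F2.WK3
import Pool.Agent.helper51.F2.AX1
import Pool.Agent.helper52.F2.AX3
import Pool.Agent.helper53.F2.AL6
import Pool.Agent.helper53.F2.WK2
import Pool.Agent.helper57.F2.MT9
import Pool.Agent.helper61.F2.CL4
import Pool.Agent.helper64.F2.AX2
import Pool.Agent.helper66.F2.AL2
import Pool.Agent.helper67.F2.AL5
import Pool.Agent.helper68.F2.MT3
import Pool.Agent.helper71.F2.MT1
import Pool.Agent.helper74.F2.CL1
import Pool.Agent.helper75.F2.AL3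
import Pool.Agent.helper78.F2.MT6
import Pool.Agent.helper78.TH.WC
import Pool.Agent.helper83.F2.CL8
import Pool.Agent.helper85.F2.AL1
import Pool.Agent.helper90.IV.SEL
import Pool.Agent.helper92.F2.CL7
import Pool.Agent.helper96.F2.AX6
import Pool.Agent.helper98.F2.AL4

/-!
MP_26dbae_co (S07735): the closure theorem: all modules together.
-/

set_option autoImplicit false

namespace Pool.Agent.F2

open Pool.Agent.helper23.TH

theorem all_MT1 : MT1_stmt := Pool.Agent.F2.MT1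

theorem all_MT2 : MT2_stmt := Pool.Agent.F2.MT2 all_MT1

theorem all_MT3 : MT3_stmt := Pool.Agent.F2.MT3

theorem all_MT4 : MT4_stmt := Pool.Agent.F2.MT4 all_MT2 all_MT3

theorem all_MT5 : MT5_stmt := Pool.Agent.F2.MT5

theorem all_MT6 : MT6_stmt := Pool.Agent.F2.MT6

theorem all_MT7 : MT7_stmt := Pool.Agent.F2.MT7 all_MT1 all_MT4 all_MT5

theorem all_MT8 : MT8_stmt := Pool.Agent.F2.MT8 all_MT1 all_MT4 all_MT5

theorem all_MT9 : MT9_stmt := Pool.Agent.F2.MT9

theorem all_WK1 : WK1_stmt := Pool.Agent.F2.WK1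

theorem all_WK2 : WK2_stmt := Pool.Agent.F2.WK2 all_WK1

theorem all_WK3 : WK3_stmt := Pool.Agent.F2.WK3 Pool.Agent.helper23.TH.WC

theorem all_WK4 : WK4_stmt := Pool.Agent.F2.WK4 Pool.Agent.helper23.TH.GLU

theorem all_WK5 : WK5_stmt := Pool.Agent.helper23.F2.WK5

theorem all_AL1 : AL1_stmt := Pool.Agent.F2.AL1

theorem all_AL2 : AL2_stmt := Pool.Agent.F2.AL2 all_WK2 all_MT6 all_MT7 all_MT8

theorem all_AL3 : AL3_stmt := Pool.Agent.F2.AL3 all_WK1

theorem all_AL4 : AL4_stmt := Pool.Agent.F2.AL4 all_WK3 all_WK4 all_AL1 all_AL2 all_AL3 all_MT7 all_MT8 all_MT9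

theorem all_AL5 : AL5_stmt := Pool.Agent.F2.AL5

theorem all_AL6 : AL6_stmt := Pool.Agent.F2.AL6 all_AL5 all_WK3

theorem all_AL7 : AL7_stmt := Pool.Agent.F2.AL7

theorem all_AL8 : AL8_stmt := Pool.Agent.F2.AL8 Pool.Agent.helper90.IV.SEL all_WK5

theorem all_AL9 : AL9_stmt := Pool.Agent.F2.AL9

theorem all_AL10 : AL10_stmt := Pool.Agent.F2.AL10 all_AL4 all_AL6 all_AL7 all_AL8 all_AL9

theorem all_AL11 : AL11_stmt := Pool.Agent.F2.AL11 all_AL10

theorem all_AL12 : AL12_stmt := Pool.Agent.F2.AL12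

theorem all_CL1 : CL1_stmt := Pool.Agent.F2.CL1

theorem all_CL2 : CL2_stmt := Pool.Agent.F2.CL2 (Pool.Agent.helper33.IV.MD Pool.Agent.KS.RG2)

theorem all_CL3 : CL3_stmt := Pool.Agent.F2.CL3

theorem all_CL4 : CL4_stmt := Pool.Agent.F2.CL4

theorem all_CL5 : CL5_stmt := Pool.Agent.F2.CL5

theorem all_CL6 : CL6_stmt := Pool.Agent.F2.CL6 all_WK2 all_MT7 all_MT8 all_WK5

theorem all_CL7 : CL7_stmt := Pool.Agent.F2.CL7

theorem all_CL8 : CL8_stmt := Pool.Agent.F2.CL8 all_CL4 all_CL5 all_CL6 all_CL7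

theorem all_AX1 : AX1_stmt := Pool.Agent.F2.AX1

theorem all_AX2 : AX2_stmt := Pool.Agent.F2.AX2 all_AX1 all_WK5

theorem all_AX3 : AX3_stmt := Pool.Agent.F2.AX3 all_AX1 all_AX2 all_WK5

theorem all_AX4 : AX4_stmt := Pool.Agent.F2.AX4 all_AX1 all_AX2 all_WK5

theorem all_AX5 : AX5_stmt := Pool.Agent.F2.AX5 all_AX1

theorem all_AX6 : AX6_stmt := Pool.Agent.F2.AX6 all_AX1 all_AX2 all_WK5

theorem all_CL9 : CL9_stmt := Pool.Agent.F2.CL9 all_AX1 all_AX3 all_AX4 all_AX5 all_AX6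

theorem all_CL10 : CL10_stmt := Pool.Agent.helper23.F2.CL10

theorem all_THM1 : THM1_stmt := Pool.Agent.F2.THM1 all_CL1 all_CL2 all_CL3 all_AL11 all_AL12 all_CL8 all_CL9 all_CL10

theorem all_STAR : STAR_stmt := Pool.Agent.F2.STAR all_CL1

theorem all_SUB : SUB_stmt := Pool.Agent.F2.SUB

end Pool.Agent.F2
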