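import Pool.Agent.helper23.TH.Spec

/-!
# MP_26dbae_co (S07735): for every rational `r` in `(1, 2)` there is `H` with `f_2(n, H) = Θ(n^r)`: definitions

Paper proof: /team-store/F2_page_helper23.md.
-/

set_option autoImplicit false

open scoped BigOperators

namespace Pool.Agent.F2

open Pool.Agent.helper23.TH

/-! ## Bipartite graphs -/

/-- a finite graph with a proper colouring `col` of its vertices with two colours; the edge `e` joins
`(ed e).1` and `(ed e).2` -/
structure HG where
  W : Type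
  E : Type
  fW : Fintype W
  fE : Fintype E
  ed : E → W × W
  col : W → Bool
  ok : ∀ e, col (ed e).1 ≠ col (ed e).2

attribute [instance] HG.fW HG.fE

/-- the vertex number `i` (`0 ≤ i ≤ t`) of the path which replaces the edge `e`; `inl (inl w)` is the old vertex `w`,
`inl (inr false)` and `inl (inr true)` are the two new vertices, `inr (e, k)` is the vertex number `k + 1` of the path `e` -/
def HG.pt (H : HG) (t : ℕ) (e : H.E) (i : ℕ) : (H.W ⊕ Bool) ⊕ (H.E × Fin (t - 1)) :=
  if h : 1 ≤ i ∧ i < t then .inr (e, ⟨i - 1, by omega⟩)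
  else if i = 0 then .inl (.inl (H.ed e).1) else .inl (.inl (H.ed e).2)

/-- the colour of the vertices of `L_t(H)` -/
def HG.ltcol (H : HG) (t : ℕ) : (H.W ⊕ Bool) ⊕ (H.E × Fin (t - 1)) → Bool
  | .inl (.inl w) => H.col w && decide (t % 2 = 1)
  | .inl (.inr b) => !(b && decide (t % 2 = 1))
  | .inr (e, k) => xor (H.col (H.ed e).1 && decide (t % 2 = 1)) (decide ((k.1 + 1) % 2 = 1))

theorem HG.ltcol_pt (H : HG) (t : ℕ) (e : H.E) (i : ℕ) (hi : i ≤ t) :
    H.ltcol t (H.pt t e i) = xor (H.col (H.ed e).1 && decide (t % 2 = 1)) (decide (i % 2 = 1)) := by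
  unfold HG.pt
  split_ifs with h1 h2
  · have h3 : i - 1 + 1 = i := by omega
    simp [HG.ltcol, h3]
  · subst h2
    simp [HG.ltcol]
  · have h3 : i = t := by omega
    subst h3
    have h4 := H.ok e
    simp only [HG.ltcol]
    rcases Nat.mod_two_eq_zero_or_one i with h5 | h5
    · simp [h5]
    · simp only [h5, decide_true, Bool.and_true]
      cases h6 : H.col (H.ed e).1 <;> cases h7 : H.col (H.ed e).2 <;> simp_all

/-- `L_t(H)`: every edge is replaced by a path of length `t`, the new vertex `inl (inr b)` is joined to all old vertices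
of colour `b` -/
def HG.Lt (H : HG) (t : ℕ) : HG where
  W := (H.W ⊕ Bool) ⊕ (H.E × Fin (t - 1))
  E := H.W ⊕ (H.E × Fin t)
  fW := inferInstance
  fE := inferInstance
  ed
    | .inl w => (.inl (.inr (H.col w)), .inl (.inl w))
    | .inr (e, i) => (H.pt t e i.1, H.pt t e (i.1 + 1))
  col := H.ltcol t
  ok := by
    rintro (w | ⟨e, i⟩)
    · simp only [HG.ltcol]
      cases H.col w <;> simp
    · have h1 := i.2
      simp only
      rw [H.ltcol_pt t e i.1 (by omega), H.ltcol_pt t e (i.1 + 1) (by omega)]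
      generalize (H.col (H.ed e).1 && decide (t % 2 = 1)) = q
      rcases Nat.mod_two_eq_zero_or_one i.1 with h5 | h5
      · have h6 : (i.1 + 1) % 2 = 1 := by omega
        cases q <;> simp [h5, h6]
      · have h6 : (i.1 + 1) % 2 = 0 := by omega
        cases q <;> simp [h5, h6]

/-- `H₁` is a part of `H₂` (with the same colours) -/
def EmbH (H₁ H₂ : HG) : Prop := ∃ (f : H₁.W → H₂.W) (g : H₁.E → H₂.E), Function.Injective f ∧
  Function.Injective g ∧ (∀ w, H₂.col (f w) = H₁.col w) ∧
  ∀ e, H₂.ed (g e) = (f (H₁.ed e).1, f (H₁.ed e).2) ∨ H₂.ed (g e) = (f (H₁.ed e).2, f (H₁.ed e).1)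

/-! ## Rooted graphs -/

/-- a rooted graph: roots `R`, inner vertices `I`, edges `E`, with a proper colouring with two colours -/
structure RT where
  R : Type
  I : Type
  E : Type
  fR : Fintype R
  fI : Fintype I
  fE : Fintype E
  ed : E → (R ⊕ I) × (R ⊕ I)
  col : R ⊕ I → Bool
  ok : ∀ e, col (ed e).1 ≠ col (ed e).2
  inj : Function.Injective (fun e => s((ed e).1, (ed e).2))

attribute [instance] RT.fR RT.fI RT.fE

open Classical in
/-- number of edges which meet the set `S` of inner vertices -/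
noncomputable def RT.es (T : RT) (S : Finset T.I) : ℕ :=
  (Finset.univ.filter fun e : T.E => ∃ x ∈ S, (T.ed e).1 = Sum.inr x ∨ (T.ed e).2 = Sum.inr x).card

/-- balanced -/
def RT.Bal (T : RT) : Prop := ∀ S : Finset T.I,
  Fintype.card T.E * S.card ≤ Fintype.card T.I * T.es S

/-- the vertices of the copy `j` in the power -/
def RT.li (T : RT) {p : ℕ} (j : Fin p) : T.R ⊕ T.I → T.R ⊕ (Fin p × T.I)
  | .inl x => .inl x
  | .inr y => .inr (j, y)

/-- colour of the vertices of the power -/
def RT.pcol (T : RT) (p : ℕ) : T.R ⊕ (Fin p × T.I) → Bool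
  | .inl x => T.col (.inl x)
  | .inr y => T.col (.inr y.2)

theorem RT.pcol_li (T : RT) {p : ℕ} (j : Fin p) (x : T.R ⊕ T.I) : T.pcol p (T.li j x) = T.col x := by
  cases x <;> rfl

/-- the `p`-th power `T^p`: `p` copies glued along the roots -/
def RT.pwH (T : RT) (p : ℕ) : HG where
  W := T.R ⊕ (Fin p × T.I)
  E := Fin p × T.E
  fW := inferInstance
  fE := inferInstance
  ed e := (T.li e.1 (T.ed e.2).1, T.li e.1 (T.ed e.2).2)
  col := T.pcol p
  ok := by
    rintro ⟨j, e⟩
    simp only [RT.pcol_li]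
    exact T.ok e

/-- old vertices in `L_t(T)` -/
def RT.em (T : RT) (t : ℕ) : T.R ⊕ T.I → (T.R ⊕ Bool) ⊕ (T.I ⊕ (T.E × Fin (t - 1)))
  | .inl x => .inl (.inl x)
  | .inr y => .inr (.inl y)

theorem RT.em_inj (T : RT) (t : ℕ) : Function.Injective (T.em t) := by
  rintro (a | a) (b | b) h <;> simp [RT.em] at h ⊢ <;> exact h

/-- the vertex number `i` (`0 ≤ i ≤ t`) of the path which replaces the edge `e` -/
def RT.pt (T : RT) (t : ℕ) (e : T.E) (i : ℕ) : (T.R ⊕ Bool) ⊕ (T.I ⊕ (T.E × Fin (t - 1))) :=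
  if h : 1 ≤ i ∧ i < t then .inr (.inr (e, ⟨i - 1, by omega⟩))
  else if i = 0 then T.em t (T.ed e).1 else T.em t (T.ed e).2

/-- the colour of the vertices of `L_t(T)` -/
def RT.ltcol (T : RT) (t : ℕ) : (T.R ⊕ Bool) ⊕ (T.I ⊕ (T.E × Fin (t - 1))) → Bool
  | .inl (.inl w) => T.col (.inl w) && decide (t % 2 = 1)
  | .inl (.inr b) => !(b && decide (t % 2 = 1))
  | .inr (.inl w) => T.col (.inr w) && decide (t % 2 = 1)
  | .inr (.inr (e, k)) => xor (T.col (T.ed e).1 && decide (t % 2 = 1)) (decide ((k.1 + 1) % 2 = 1))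

theorem RT.ltcol_em (T : RT) (t : ℕ) (x : T.R ⊕ T.I) :
    T.ltcol t (T.em t x) = (T.col x && decide (t % 2 = 1)) := by
  cases x <;> rfl

theorem RT.ltcol_pt (T : RT) (t : ℕ) (e : T.E) (i : ℕ) (hi : i ≤ t) :
    T.ltcol t (T.pt t e i) = xor (T.col (T.ed e).1 && decide (t % 2 = 1)) (decide (i % 2 = 1)) := by
  unfold RT.pt
  split_ifs with h1 h2
  · have h3 : i - 1 + 1 = i := by omega
    simp [RT.ltcol, h3]
  · subst h2
    rw [RT.ltcol_em]
    simp
  · have h3 : i = t := by omega
    subst h3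
    have h4 := T.ok e
    rw [RT.ltcol_em]
    rcases Nat.mod_two_eq_zero_or_one i with h5 | h5
    · simp [h5]
    · simp only [h5, decide_true, Bool.and_true]
      cases h6 : T.col (T.ed e).1 <;> cases h7 : T.col (T.ed e).2 <;> simp_all

/-- edges of `L_t(T)` -/
def RT.lted (T : RT) (t : ℕ) : T.I ⊕ (T.E × Fin t) →
    ((T.R ⊕ Bool) ⊕ (T.I ⊕ (T.E × Fin (t - 1)))) × ((T.R ⊕ Bool) ⊕ (T.I ⊕ (T.E × Fin (t - 1))))
  | .inl w => (.inl (.inr (T.col (.inr w))), .inr (.inl w))
  | .inr (e, i) => (T.pt t e i.1, T.pt t e (i.1 + 1))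

theorem RT.pt_mid (T : RT) (t : ℕ) (e : T.E) (i : ℕ) (h : 1 ≤ i ∧ i < t) :
    T.pt t e i = .inr (.inr (e, ⟨i - 1, by omega⟩)) := by
  unfold RT.pt
  rw [dif_pos h]

theorem RT.pt_zero (T : RT) (t : ℕ) (e : T.E) : T.pt t e 0 = T.em t (T.ed e).1 := by
  unfold RT.pt
  rw [dif_neg (by omega), if_pos rfl]

theorem RT.pt_last (T : RT) (t : ℕ) (e : T.E) (ht : 1 ≤ t) : T.pt t e t = T.em t (T.ed e).2 := by
  unfold RT.pt
  rw [dif_neg (by omega), if_neg (by omega)]

theorem RT.pt_ne_new (T : RT) (t : ℕ) (e : T.E) (i : ℕ) (b : Bool) : T.pt t e i ≠ .inl (.inr b) := by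
  unfold RT.pt
  split_ifs with h1 h2
  · simp
  · cases (T.ed e).1 <;> simp [RT.em]
  · cases (T.ed e).2 <;> simp [RT.em]

/-- the path `e` in `L_t(T)` determines its vertices -/
theorem RT.pt_eq (T : RT) (t : ℕ) (e e' : T.E) (i j : ℕ) (hi : 1 ≤ i ∧ i < t) (h : T.pt t e i = T.pt t e' j)
    : e = e' ∧ i = j := by
  rw [T.pt_mid t e i hi] at h
  unfold RT.pt at h
  split_ifs at h with h1 h2
  · simp only [Sum.inr.injEq, Prod.mk.injEq, Fin.mk.injEq] at h
    exact ⟨h.1, by omega⟩
  · cases h3 : (T.ed e').1 <;> simp [RT.em, h3] at h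
  · cases h3 : (T.ed e').2 <;> simp [RT.em, h3] at h

theorem RT.lted_inj (T : RT) (t : ℕ) :
    Function.Injective (fun e => s((T.lted t e).1, (T.lted t e).2)) := by
  rintro (w | ⟨e, i⟩) (w' | ⟨e', i'⟩) h
  · simp only [RT.lted, Sym2.eq_iff] at h
    rcases h with ⟨h1, h2⟩ | ⟨h1, h2⟩
    · simp at h2
      rw [h2]
    · simp at h1
  · simp only [RT.lted, Sym2.eq_iff] at h
    rcases h with ⟨h1, h2⟩ | ⟨h1, h2⟩
    · exact absurd h1.symm (T.pt_ne_new t _ _ _)
    · exact absurd h1.symm (T.pt_ne_new t _ _ _)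
  · simp only [RT.lted, Sym2.eq_iff] at h
    rcases h with ⟨h1, h2⟩ | ⟨h1, h2⟩
    · exact absurd h1 (T.pt_ne_new t _ _ _)
    · exact absurd h2 (T.pt_ne_new t _ _ _)
  · have hi := i.2
    have hi' := i'.2
    simp only [RT.lted, Sym2.eq_iff] at h
    by_cases ht : t = 1
    · subst ht
      have h1 : i.1 = 0 := by omega
      have h2 : i'.1 = 0 := by omega
      simp only [h1, h2, Nat.zero_add] at h
      rw [T.pt_zero, T.pt_zero, T.pt_last 1 e le_rfl, T.pt_last 1 e' le_rfl] at h
      have h3 : e = e' := by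
        apply T.inj
        simp only [Sym2.eq_iff]
        rcases h with ⟨h1, h2⟩ | ⟨h1, h2⟩
        · exact Or.inl ⟨T.em_inj 1 h1, T.em_inj 1 h2⟩
        · exact Or.inr ⟨T.em_inj 1 h1, T.em_inj 1 h2⟩
      subst h3
      have h4 : i = i' := Fin.ext (by omega)
      rw [h4]
    · have key : e = e' ∧ i.1 = i'.1 := by
        rcases h with ⟨h1, h2⟩ | ⟨h1, h2⟩
        · by_cases hz : i.1 = 0
          · have := T.pt_eq t e e' (i.1 + 1) (i'.1 + 1) (by omega) h2
            exact ⟨this.1, by omega⟩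
          · exact T.pt_eq t e e' i.1 i'.1 (by omega) h1
        · by_cases hz : i.1 = 0
          · have h3 := T.pt_eq t e e' (i.1 + 1) i'.1 (by omega) h2
            have h4 : i'.1 = 1 := by omega
            have h5 := h3.1
            subst h5
            rw [hz, h4] at h1
            by_cases h6 : t = 2
            · subst h6
              rw [T.pt_zero] at h1
              have h7 := T.pt_last 2 e (by omega)
              rw [h7] at h1
              have h8 := T.em_inj 2 h1
              exact absurd (by rw [h8]) (T.ok e)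
            · have h7 := T.pt_eq t e e (1 + 1) 0 (by omega) h1.symm
              omega
          · have h3 := T.pt_eq t e e' i.1 (i'.1 + 1) (by omega) h1
            have h5 := h3.1
            subst h5
            by_cases h6 : i'.1 = 0
            · rw [h6] at h2
              by_cases h7 : i.1 + 1 < t
              · have h8 := T.pt_eq t e e (i.1 + 1) 0 (by omega) h2
                omega
              · have h8 : i.1 + 1 = t := by omega
                have h9 : i.1 = 1 := by omega
                rw [h8, T.pt_zero, T.pt_last t e (by omega)] at h2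
                have h10 := T.em_inj t h2
                exact absurd (by rw [h10]) (T.ok e)
            · have h8 := T.pt_eq t e e i'.1 (i.1 + 1) (by omega) h2.symm
              omega
      obtain ⟨h1, h2⟩ := key
      subst h1
      have h4 : i = i' := Fin.ext h2
      rw [h4]

/-- `L_t(T)`: every edge is replaced by a path of length `t`, the new root `inl (inr b)` is joined to all old inner
vertices of colour `b` -/
def RT.Lt (T : RT) (t : ℕ) : RT where
  R := T.R ⊕ Bool
  I := T.I ⊕ (T.E × Fin (t - 1))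
  E := T.I ⊕ (T.E × Fin t)
  fR := inferInstance
  fI := inferInstance
  fE := inferInstance
  ed := T.lted t
  col := T.ltcol t
  ok := by
    rintro (w | ⟨e, i⟩)
    · simp only [RT.lted, RT.ltcol]
      cases T.col (.inr w) <;> simp
    · have h1 := i.2
      simp only [RT.lted]
      rw [T.ltcol_pt t e i.1 (by omega), T.ltcol_pt t e (i.1 + 1) (by omega)]
      generalize (T.col (T.ed e).1 && decide (t % 2 = 1)) = q
      rcases Nat.mod_two_eq_zero_or_one i.1 with h5 | h5
      · have h6 : (i.1 + 1) % 2 = 1 := by omega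
        cases q <;> simp [h5, h6]
      · have h6 : (i.1 + 1) % 2 = 0 := by omega
        cases q <;> simp [h5, h6]
  inj := T.lted_inj t

/-- one root joined to one inner vertex -/
def starT : RT where
  R := Unit
  I := Unit
  E := Unit
  fR := inferInstance
  fI := inferInstance
  fE := inferInstance
  ed _ := (.inl (), .inr ())
  col
    | .inl _ => false
    | .inr _ => true
  ok := by
    intro e
    simp
  inj := fun _ _ _ => rfl

/-! ## Labelled graphs -/

/-- A `(b, s)`-labelled bipartite graph. `nm v` is the name of `v`. -/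
structure LG (V L : Type) (b s : ℕ) where
  A : V → V → Prop
  symm : ∀ u v, A u v → A v u
  c : V → Bool
  bip : ∀ u v, A u v → c u ≠ c v
  lv : V → Finset L
  le : V → V → Finset L
  lsymm : ∀ u v, le u v = le v u
  nm : V → L
  nmi : Function.Injective nm
  nmm : ∀ v, nm v ∈ lv v
  bv : ∀ v, (lv v).card ≤ b
  be : ∀ u v, (le u v).card ≤ b
  sp : ∀ (v : V) (x : L) (S : Finset V), (∀ w ∈ S, A v w ∧ (x ∈ lv w ∨ x ∈ le v w)) → S.card ≤ s

variable {V L : Type} {b s : ℕ}

/-- labels of the vertices and edges of a copy of `H` -/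
def LG.lab (G : LG V L b s) (H : HG) (φ : H.W → V) : H.W ⊕ H.E → Finset L
  | .inl w => G.lv (φ w)
  | .inr e => G.le (φ (H.ed e).1) (φ (H.ed e).2)

/-- `φ` is a conflict-free copy of `H` -/
structure LG.Cop (G : LG V L b s) (H : HG) (φ : H.W → V) : Prop where
  adj : ∀ e, G.A (φ (H.ed e).1) (φ (H.ed e).2)
  dis : ∀ o o', o ≠ o' → Disjoint (G.lab H φ o) (G.lab H φ o')

/-- there is a conflict-free copy -/
def LG.CF0 (G : LG V L b s) (H : HG) : Prop := ∃ φ : H.W → V, G.Cop H φ

/-- there is a conflict-free copy which respects or reverses the sides -/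
def LG.CF (G : LG V L b s) (H : HG) : Prop := ∃ φ : H.W → V, G.Cop H φ ∧
  ((∀ w, G.c (φ w) = H.col w) ∨ ∀ w, G.c (φ w) = !H.col w)

/-- the extremal condition -/
def ST (H : HG) (a : ℝ) : Prop := ∀ b s : ℕ, ∃ K : ℝ, 0 < K ∧ ∀ (V L : Type) [Fintype V] [Fintype L]
  (G : LG V L b s), 0 < Fintype.card V →
  K * (Fintype.card V : ℝ) ^ (1 + a) ≤ ∑ v, (dg G.A Finset.univ v : ℝ) → G.CF H

/-- vertices and edges of a walk with `t` steps -/
abbrev Ob (t : ℕ) : Type := Fin (t + 1) ⊕ Fin t

/-- labels of the vertices and edges of a walk -/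
def LG.obj (G : LG V L b s) {t : ℕ} (P : Fin (t + 1) → V) : Ob t → Finset L
  | .inl i => G.lv (P i)
  | .inr j => G.le (P j.castSucc) (P j.succ)

/-- not one of the two ends -/
def Inn {t : ℕ} (o : Ob t) : Prop := o ≠ .inl 0 ∧ o ≠ .inl (Fin.last t)

/-- a walk without conflicts -/
def LG.Cln (G : LG V L b s) {t : ℕ} (P : Fin (t + 1) → V) : Prop :=
  ∀ o o' : Ob t, o ≠ o' → Disjoint (G.obj P o) (G.obj P o')

/-- conflict between two walks (with the same ends) -/
def LG.XC (G : LG V L b s) {t : ℕ} (P Q : Fin (t + 1) → V) : Prop :=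
  ∃ o o' : Ob t, (Inn o ∨ Inn o') ∧ ¬ Disjoint (G.obj P o) (G.obj Q o')

/-- `x` and `y` are joined by `q` walks without conflicts -/
def LG.Str (G : LG V L b s) (t q : ℕ) (x y : V) : Prop :=
  ∃ Q : Fin q → Fin (t + 1) → V,
    (∀ i, Wk G.A t (Q i) ∧ Q i 0 = x ∧ Q i (Fin.last t) = y ∧ G.Cln (Q i)) ∧
    ∀ i j, i ≠ j → ∀ o o' : Ob t, Inn o → Inn o' → Disjoint (G.obj (Q i) o) (G.obj (Q j) o')

/-- good pair of walks from `m` to `m'` -/
def LG.GP (G : LG V L b s) (k q : ℕ) (P Q : Fin (k + 2) → V) : Prop :=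
  G.Cln P ∧ G.Cln Q ∧ ¬ G.XC P Q ∧ G.Str (k + 1) q (Q 1) (P (Fin.last k).castSucc)

open Classical in
/-- the set of the walks with `t` steps from `x` to `y` -/
noncomputable def LG.WW [Fintype V] (G : LG V L b s) (t : ℕ) (x y : V) : Finset (Fin (t + 1) → V) :=
  Finset.univ.filter fun P => Wk G.A t P ∧ P 0 = x ∧ P (Fin.last t) = y

open Classical in
/-- diagonal matrix of the vertices with label `x` -/
noncomputable def LG.PM (G : LG V L b s) (x : L) : Matrix V V ℝ :=
  Matrix.diagonal fun v => if x ∈ G.lv v then 1 else 0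

open Classical in
/-- adjacency matrix of the edges with label `x` -/
noncomputable def LG.AM (G : LG V L b s) (x : L) : Matrix V V ℝ :=
  Matrix.of fun u v => if G.A u v ∧ x ∈ G.le u v then 1 else 0

/-- the numbers of the walks with `t` steps whose object `o` has the label `x` -/
noncomputable def LG.MM [Fintype V] [DecidableEq V] (G : LG V L b s) (t : ℕ) (x : L) : Ob t → Matrix V V ℝ
  | .inl i => am G.A ^ i.1 * G.PM x * am G.A ^ (t - i.1)
  | .inr j => am G.A ^ j.1 * G.AM x * am G.A ^ (t - 1 - j.1)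

/-- sum of the squares of the entries -/
def nsq [Fintype V] (M : Matrix V V ℝ) : ℝ := ∑ x, ∑ y, M x y ^ 2

/-- `∑ x, |M_o^x|^2` -/
noncomputable def LG.FF [Fintype V] [DecidableEq V] [Fintype L] (G : LG V L b s) (t : ℕ) (o : Ob t) : ℝ :=
  ∑ x, nsq (G.MM t x o)

/-- degrees between `D` and `k D` -/
def LG.Reg [Fintype V] (G : LG V L b s) (D k : ℝ) : Prop :=
  ∀ v, D ≤ dg G.A Finset.univ v ∧ (dg G.A Finset.univ v : ℝ) ≤ k * D

end Pool.Agent.F2
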