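import Pool.Agent.helper23.F2.Defs
import Pool.Agent.helper90.IV.Spec

/-!
# MP_26dbae_co (S07735), closure theorem: statements of the modules

Paper proof: /team-store/F2_page_helper23.md. `N = #V`, `A = am G.A`, `h_j = hh G.A j = tr A^(2j) = nsq (A^j)`.
Any statement of this file, of `Pool/Agent/helper23/TH/Spec.lean`, `Pool/Agent/helper90/KS/Spec.lean` and
`Pool/Agent/helper90/IV/Spec.lean` may be used as a hypothesis of a module (no circles).
-/

set_option autoImplicit false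

open scoped BigOperators

namespace Pool.Agent.F2

open Pool.Agent.helper23.TH

noncomputable section

open Classical

/-! ## MT. Matrices -/

/-- inner product of matrices -/
def ip {V : Type} [Fintype V] (M N : Matrix V V ℝ) : ℝ := ∑ x, ∑ y, M x y * N x y

/-- MT1. `ip M N = tr (Mᵀ N)`, `Mᵀ = A^j P A^i`; `tr (X Y) = tr (Y X)`. -/
def MT1_stmt : Prop := ∀ (V : Type) [Fintype V] (A P : Matrix V V ℝ), A.transpose = A →
  P.transpose = P → ∀ i j k l : ℕ,
  ip (A ^ i * P * A ^ j) (A ^ k * P * A ^ l) = Matrix.trace (P * A ^ (i + k) * P * A ^ (j + l))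

/-- MT2 (from MT1). First part: `nsq (A^(i+1) P A^(j+1)) = ip (A^i P A^(j+2)) (A^(i+2) P A^j)` (both are
`tr (P A^(2i+2) P A^(2j+2))`) `≤ nsq(..)^(1/2) nsq(..)^(1/2)` (Cauchy-Schwarz), then Cauchy-Schwarz for the sum over
`x`. Second part: `tr (P A^(2i) P A^(2j)) = tr (P A^(2j) P A^(2i))`. -/
def MT2_stmt : Prop := ∀ (V L : Type) [Fintype V] [Fintype L] (A : Matrix V V ℝ) (P : L → Matrix V V ℝ),
  A.transpose = A → (∀ x, (P x).transpose = P x) → ∀ i j : ℕ,
  (∑ x, nsq (A ^ (i + 1) * P x * A ^ (j + 1))) ^ 2 ≤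
    (∑ x, nsq (A ^ i * P x * A ^ (j + 2))) * (∑ x, nsq (A ^ (i + 2) * P x * A ^ j)) ∧
  ∑ x, nsq (A ^ i * P x * A ^ j) = ∑ x, nsq (A ^ j * P x * A ^ i)

/-- MT3. Let `M` be the maximum of `f` on `0..n` and `i` the least index with `f i = M`. If `M > f 0` then `0 < i < n` and
`M^2 ≤ f (i-1) f (i+1) ≤ f (i-1) M`, so `f (i-1) ≥ M`, contradiction. -/
def MT3_stmt : Prop := ∀ (n : ℕ) (f : ℕ → ℝ), (∀ i, 0 ≤ f i) →
  (∀ i, i + 2 ≤ n → f (i + 1) ^ 2 ≤ f i * f (i + 2)) → f 0 = f n → ∀ i, i ≤ n → f i ≤ f 0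

/-- MT4 (from MT2, MT3). `f m = ∑ x, nsq (A^m P A^(i+j-m))`, `n = i + j`; for the second part
`f m = ∑ x, nsq (A^(m+1) P A^(i+j+1-m))`. -/
def MT4_stmt : Prop := ∀ (V L : Type) [Fintype V] [Fintype L] (A : Matrix V V ℝ) (P : L → Matrix V V ℝ),
  A.transpose = A → (∀ x, (P x).transpose = P x) → ∀ i j : ℕ,
  ∑ x, nsq (A ^ i * P x * A ^ j) ≤ ∑ x, nsq (P x * A ^ (i + j)) ∧
  ∑ x, nsq (A ^ (i + 1) * P x * A ^ (j + 1)) ≤ ∑ x, nsq (A * P x * A ^ (i + j + 1))

/-- MT5. `(A^(2n)) x y = ∑ z, (A^n) x z (A^n) y z ≤ ((A^(2n)) x x + (A^(2n)) y y) / 2` and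
`∑ x, (A^(2n)) x x = nsq (A^n)`. Multiply by `B x y ≥ 0` and use the symmetry of `B` and the row sums
(`(A^(2n)) x x ≥ 0`). -/
def MT5_stmt : Prop := ∀ (V : Type) [Fintype V] (A B : Matrix V V ℝ) (β : ℝ) (n : ℕ),
  A.transpose = A → B.transpose = B → (∀ x y, 0 ≤ B x y) → (∀ x, ∑ y, B x y ≤ β) →
  ∑ x, ∑ y, B x y * (A ^ (2 * n)) x y ≤ β * nsq (A ^ n)

/-- MT6. The end objects: `nsq (P A^t) = ∑ z with label x, (A^(2t)) z z`, every `z` has at most `b` labels; the other end by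
transposition (`nsq Mᵀ = nsq M`). -/
def MT6_stmt : Prop := ∀ (V L : Type) [Fintype V] [Fintype L] (b s : ℕ) (G : LG V L b s) (t : ℕ),
  G.FF t (.inl 0) ≤ b * hh G.A t ∧ G.FF t (.inl (Fin.last t)) ≤ b * hh G.A t

/-- MT7 (from MT1, MT4, MT5). Inner vertex `i`, `1 ≤ i ≤ t - 1`: MT4, second part, with `i - 1`, `t - i - 1`, then MT1:
`FF ≤ ∑ x, tr (P A^2 P A^(2t-2)) = ∑ z z', B z z' (A^(2t-2)) z z'` with `B z z' = ∑ x ∈ lv z ∩ lv z', (A^2) z z'`.
Row sums of `B`: `∑ x ∈ lv z, ∑ w ~ z, #{z' ~ w : x ∈ lv z'} ≤ b Δ s`. MT5. -/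
def MT7_stmt : Prop := ∀ (V L : Type) [Fintype V] [Fintype L] (b s : ℕ) (G : LG V L b s) (Δ : ℝ),
  (∀ v, (dg G.A Finset.univ v : ℝ) ≤ Δ) → ∀ (t : ℕ) (i : Fin (t + 1)), i ≠ 0 → i ≠ Fin.last t →
  G.FF t (.inl i) ≤ b * s * Δ * hh G.A (t - 1)

/-- MT8 (from MT1, MT4, MT5). Edge `j`: MT4, first part, then MT1: `FF ≤ ∑ x, tr (A_x^2 A^(2t-2))`, `A_x = G.AM x`;
`B = ∑ x, A_x^2`, row sums: `∑ x, ∑ w ~ z with x ∈ le z w, #{z' ~ w : x ∈ le w z'} ≤ s ∑ w ~ z, #(le z w) ≤ s b Δ`. MT5. -/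
def MT8_stmt : Prop := ∀ (V L : Type) [Fintype V] [Fintype L] (b s : ℕ) (G : LG V L b s) (Δ : ℝ),
  (∀ v, (dg G.A Finset.univ v : ℝ) ≤ Δ) → ∀ (t : ℕ) (j : Fin t),
  G.FF t (.inr j) ≤ b * s * Δ * hh G.A (t - 1)

/-- MT9. `h_(t-1)^t ≤ N h_t^(t-1)` (eigenvalues and Hoelder: `WI_hh`, `WI_holder` in Pool/Agent/helper38/TH/WI.lean, the case
`t = 1` is `h_0 = N`), so `(Δ h_(t-1))^t ≤ Δ^t N h_t^(t-1) ≤ (η h_t)^t`. -/
def MT9_stmt : Prop := ∀ (V : Type) [Fintype V] (A : V → V → Prop), (∀ u v, A u v → A v u) →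
  ∀ (t : ℕ) (Δ η : ℝ), 1 ≤ t → 0 ≤ Δ → 0 < η → (Fintype.card V : ℝ) * Δ ^ t ≤ η ^ t * hh A t →
  Δ * hh A (t - 1) ≤ η * hh A t

/-! ## WK. Walks -/

/-- WK1. Induction on `t`: split off the first vertex, `P = Fin.cons x P'`:
`#{P ∈ WW (t+1) x y : Q P} = ∑ w ~ x, #{P' ∈ WW t w y : Q (cons x P')}`. Objects: `inl 0` of `P` is `x`, `inr 0` is the edge
`x w`, `inl i.succ`, `inr j.succ` are the objects `inl i`, `inr j` of `P'`. (The number of walks is `(A^t) x y`: `WC` in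
Pool/Agent/helper78/TH/WC.lean.) -/
def WK1_stmt : Prop := ∀ (V L : Type) [Fintype V] (b s : ℕ) (G : LG V L b s) (t : ℕ) (z : L) (o : Ob t)
  (x y : V), (((G.WW t x y).filter fun P => z ∈ G.obj P o).card : ℝ) = G.MM t z o x y

/-- pairs of walks with `t` steps and the same ends -/
def PP {V : Type} [Fintype V] (A : V → V → Prop) (t : ℕ) : Finset ((Fin (t + 1) → V) × (Fin (t + 1) → V)) :=
  Finset.univ.filter fun q => Wk A t q.1 ∧ Wk A t q.2 ∧ q.1 0 = q.2 0 ∧ q.1 (Fin.last t) = q.2 (Fin.last t)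

/-- WK2 (from WK1). The number of pairs is at most `∑ z, ∑ x y, MM z o x y * MM z o' x y` (choose a common label `z` of the two
objects); Cauchy-Schwarz for the sum over `x y z`. -/
def WK2_stmt : Prop := ∀ (V L : Type) [Fintype V] [Fintype L] (b s : ℕ) (G : LG V L b s) (t : ℕ)
  (o o' : Ob t), (((PP G.A t).filter fun q => ¬ Disjoint (G.obj q.1 o) (G.obj q.2 o')).card : ℝ) ^ 2 ≤
    G.FF t o * G.FF t o'

/-- WK3 (from `WC_stmt`). `#PP = ∑ x y, (number of the walks from x to y)^2`; the same for a sum over some of the ends. -/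
def WK3_stmt : Prop := ∀ (V : Type) [Fintype V] (A : V → V → Prop) (t : ℕ),
  ((PP A t).card : ℝ) = hh A t

/-- the two walks with `k + 1` steps into which the points `c`, `c + k + 1` cut the closed walk `z` -/
def fc {V : Type} {k : ℕ} (c : ZMod (2 * k + 2)) (z : ZMod (2 * k + 2) → V) : Fin (k + 2) → V :=
  fun i => z (c + (i.1 : ZMod (2 * k + 2)))

/-- see `fc` -/
def gc {V : Type} {k : ℕ} (c : ZMod (2 * k + 2)) (z : ZMod (2 * k + 2) → V) : Fin (k + 2) → V :=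
  fun i => z (c - (i.1 : ZMod (2 * k + 2)))

/-- WK4 (from `GLU_stmt`). For `c = 0` this is GLU; `z ↦ (fun i => z (c + i))` is a permutation of the closed walks. -/
def WK4_stmt : Prop := ∀ (V : Type) [Fintype V] (A : V → V → Prop), (∀ u v, A u v → A v u) →
  ∀ (k : ℕ) (c : ZMod (2 * k + 2)) (R : (Fin (k + 2) → V) → (Fin (k + 2) → V) → Prop),
  ((Finset.univ : Finset (ZMod (2 * k + 2) → V)).filter fun z => CWk A k z ∧ R (fc c z) (gc c z)).card =
    ((PP A (k + 1)).filter fun q => R q.1 q.2).card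

/-- WK5. Walks and conflict-free copies under reversal: `P ∘ Fin.rev`. The object `inl i` becomes `inl i.rev`, the object
`inr j` becomes `inr j.rev` (`G.lsymm`). -/
def WK5_stmt : Prop := ∀ (V L : Type) (b s : ℕ) (G : LG V L b s) (t : ℕ) (P : Fin (t + 1) → V),
  (Wk G.A t P → Wk G.A t (fun i => P i.rev)) ∧
  (∀ i, G.obj (fun i => P i.rev) (.inl i) = G.obj P (.inl i.rev)) ∧
  (∀ j, G.obj (fun i => P i.rev) (.inr j) = G.obj P (.inr j.rev)) ∧
  (G.Cln P → G.Cln fun i => P i.rev)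

/-! ## AL. The average lemma -/

/-- AL1. Conflicts inside one of the two walks are conflicts between the two walks of another cut. Let `k ≥ 1`, `c` given. For
`fc c z`: vertices `i < j`: cut at `c + i + 1`: vertex `i` is the vertex `1` of `gc` (inner, as `k + 1 ≥ 2`), vertex `j` is the
vertex `j - i - 1` of `fc`. Vertex `i` and edge `j ≥ i`: cut at `c + i`: vertex `0` of `gc`, edge `j - i` of `fc` (edges are
inner). Vertex `i` and edge `j < i`: cut at `c + j + 1`: edge `0` of `gc`, vertex `i - j - 1` of `fc`. Edges `i < j`: cut at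
`c + i + 1`: edge `0` of `gc`, edge `j - i - 1` of `fc`. For `gc c z` use the closed walk `fun i => z (-i)`:
`gc c z = fc (-c) (fun i => z (-i))`, `fc c z = gc (-c) (..)` and `XC P Q ↔ XC Q P`. -/
def AL1_stmt : Prop := ∀ (V L : Type) (b s : ℕ) (G : LG V L b s) (k : ℕ) (z : ZMod (2 * k + 2) → V), 1 ≤ k →
  (∀ c, ¬ G.XC (fc c z) (gc c z)) → ∀ c, G.Cln (fc c z) ∧ G.Cln (gc c z)

/-- AL2 (from WK2, MT6, MT7, MT8). For `(o, o')` with `Inn o` the number of pairs `q` is at most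
`(FF o FF o')^(1/2) ≤ (b s η^2 h_t * b (s + 1) h_t)^(1/2) ≤ b (s + 1) η h_t`; there are `(2t+1)^2` pairs `(o, o')`. -/
def AL2_stmt : Prop := ∀ (V L : Type) [Fintype V] [Fintype L] (b s : ℕ) (G : LG V L b s) (Δ : ℝ) (t : ℕ)
  (η : ℝ), (∀ v, (dg G.A Finset.univ v : ℝ) ≤ Δ) → 0 ≤ Δ → 0 ≤ η → η ≤ 1 →
  Δ * hh G.A (t - 1) ≤ η ^ 2 * hh G.A t →
  (((PP G.A t).filter fun q => G.XC q.1 q.2).card : ℝ) ≤ (2 * t + 1) ^ 2 * (b * (s + 1)) * η * hh G.A t

/-- AL3 (from WK1). Suppose `Str t q x y` does not hold. `Str t 0 x y` holds, so there is `r < q` with `Str t r x y` and not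
`Str t (r+1) x y`; let `Q : Fin r → ..` be the family and `L0` the set of the labels of all inner objects of the `Q i`,
`#L0 ≤ q (2t+1) b`. Every walk `P` without conflicts from `x` to `y` has an inner object with a label in `L0` (otherwise `Q` and `P`
would be a family of `r + 1` walks, `Fin.snoc`). So the number of walks without conflicts from `x` to `y` is at most
`∑ z ∈ L0, ∑ o inner, MM z o x y`; Cauchy-Schwarz (`#L0 (2t+1)` terms), then sum over all labels and all `x`, `y`. -/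
def AL3_stmt : Prop := ∀ (V L : Type) [Fintype V] [Fintype L] (b s : ℕ) (G : LG V L b s) (t q : ℕ),
  ∑ x, ∑ y, (if G.Str t q x y then 0 else (((G.WW t x y).filter fun P => G.Cln P).card : ℝ) ^ 2) ≤
    (q * (2 * t + 1) ^ 2 * b) * ∑ o ∈ Finset.univ.filter (fun o : Ob t => Inn o), G.FF t o

/-- AL4 (from WK3, WK4, AL1, AL2, AL3, MT7, MT8, MT9). `t = k + 1`. Choose `η` small (`0 < η ≤ 1`), `C = η^(-2t)`, so
`Δ h_(t-1) ≤ η^2 h_t` by MT9. Number of closed walks (WK4 with `c = 1`). If `(fc 1 z, gc 1 z)` is not good then either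
`XC (fc c z) (gc c z)` for some `c` (at most `(2k+2)` times AL2), or (AL1) all `fc c z`, `gc c z` are without conflicts and
`z 0`, `z (k+1)` are not strongly joined (`gc 1 z 1 = z 0`, `fc 1 z k = z (k+1)`): by WK4 with `c = 0` these are at most the
left side of AL3, which is at most `q (2t+1)^2 b (2t+1) b s η^2 h_t`. -/
def AL4_stmt : Prop := ∀ (k q b s : ℕ) (δ : ℝ), 1 ≤ k → 0 < δ → ∃ C : ℝ, 0 < C ∧
  ∀ (V L : Type) [Fintype V] [Fintype L] (G : LG V L b s) (Δ : ℝ), 0 ≤ Δ →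
  (∀ v, (dg G.A Finset.univ v : ℝ) ≤ Δ) → C * Fintype.card V * Δ ^ (k + 1) ≤ hh G.A (k + 1) →
  (((PP G.A (k + 1)).filter fun p => ¬ G.GP k q p.1 p.2).card : ℝ) ≤ δ * hh G.A (k + 1)

/-- AL5. Random choice: for `i ≠ j` the number of functions `f : W → S` with `B (f i) (f j)` is
`#B * #S^(#W - 2) ≤ δ #S^(#W)`, and there are less than `(#W)^2` pairs `(i, j)`. (If `#W ≤ 1` take any element of `S`.) -/
def AL5_stmt : Prop := ∀ (X W : Type) [Fintype W] (S : Finset X) (B : X → X → Prop) (δ : ℝ), S.Nonempty →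
  (((S ×ˢ S).filter fun p => B p.1 p.2).card : ℝ) ≤ δ * (S.card : ℝ) ^ 2 → 0 ≤ δ →
  δ * (Fintype.card W : ℝ) ^ 2 < 1 → ∃ f : W → X, (∀ i, f i ∈ S) ∧ ∀ i j, i ≠ j → ¬ B (f i) (f j)

/-- AL6 (from AL5, WK3). `∑ m m', #{bad pairs of walks from m to m'} ≤ δ h_t = δ ∑ m m', (#WW m m')^2` and `h_t > 0`, so there is
`(m, m')` with `WW m m'` nonempty and at most `δ (#WW m m')^2` bad pairs. AL5 with `S = WW m m'`. -/
def AL6_stmt : Prop := ∀ (V L : Type) [Fintype V] (b s : ℕ) (G : LG V L b s) (k q : ℕ) (W : Type)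
  [Fintype W] (δ : ℝ), 0 ≤ δ → δ * (Fintype.card W : ℝ) ^ 2 < 1 → 0 < hh G.A (k + 1) →
  (((PP G.A (k + 1)).filter fun p => ¬ G.GP k q p.1 p.2).card : ℝ) ≤ δ * hh G.A (k + 1) →
  ∃ (m m' : V) (w : W → Fin (k + 2) → V), (∀ i, w i ∈ G.WW (k + 1) m m') ∧
    ∀ i j, i ≠ j → G.GP k q (w i) (w j)

/-- the system of walks found by AL6; `none` is a spare index -/
structure Sys {V L : Type} [Fintype V] {b s : ℕ} (G : LG V L b s) (k q : ℕ) (W : Type) (m m' : V)
    (w : Option W → Fin (k + 2) → V) : Prop where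
  mem : ∀ i, w i ∈ G.WW (k + 1) m m'
  gp : ∀ i j, i ≠ j → G.GP k q (w i) (w j)

/-- the vertices `m`, `m'` and the chosen neighbours -/
def xv {V : Type} {k : ℕ} (H : HG) (m m' : V) (w : Option H.W → Fin (k + 2) → V) : H.W ⊕ Bool → V
  | .inl i => if H.col i then w (some i) (Fin.last k).castSucc else w (some i) 1
  | .inr b => if b then m' else m

/-- the edges between `m`, `m'` and the chosen neighbours -/
def xe {V L : Type} {b s k : ℕ} (G : LG V L b s) (H : HG) (m m' : V) (w : Option H.W → Fin (k + 2) → V)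
    (i : H.W) : Finset L :=
  G.le (xv H m m' w (.inr (H.col i))) (xv H m m' w (.inl i))

/-- AL7. The fixed objects (vertices `xv`, edges `xe`) are without conflicts, `k ≥ 1`. For `i` with colour `false`: `xv (inl i)` is the
object `inl 1` of `w (some i)` and `xe i` is its object `inr 0`; for colour `true`: the objects `inl k` and `inr k` (last
edge, `G.lsymm`). `m`, `m'` are the objects `inl 0`, `inl (last)` of every `w j`. Two different indices `i ≠ j`:
`¬ XC (w (some i)) (w (some j))`. The same index, or `m`, `m'` against an object of `i`, or `m` against `m'`: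
`Cln (w (some i))` or `Cln (w none)` (from `GP (w (some i)) (w none)` resp. use that `H.W` is nonempty). Adjacency: walks. Last
part: `GP (w (some j)) (w (some i))`. -/
def AL7_stmt : Prop := ∀ (V L : Type) [Fintype V] (b s : ℕ) (G : LG V L b s) (k q : ℕ) (H : HG) (m m' : V)
  (w : Option H.W → Fin (k + 2) → V), 1 ≤ k → Nonempty H.W → Sys G k q H.W m m' w →
  (∀ i, G.A (xv H m m' w (.inr (H.col i))) (xv H m m' w (.inl i))) ∧
  (∀ i j, i ≠ j → Disjoint (G.lv (xv H m m' w i)) (G.lv (xv H m m' w j))) ∧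
  (∀ i j, Disjoint (G.lv (xv H m m' w i)) (xe G H m m' w j)) ∧
  (∀ i j, i ≠ j → Disjoint (xe G H m m' w i) (xe G H m m' w j)) ∧
  ∀ i j, H.col i = false → H.col j = true → G.Str (k + 1) q (xv H m m' w (.inl i)) (xv H m m' w (.inl j))

/-- AL8 (from `SEL_stmt`, WK5). Connection: for every edge `e` of `H` there are `q` walks from `xv (inl (ed e).1)` to
`xv (inl (ed e).2)` as in `Str` (by AL7, last part, if `(ed e).1` has colour `false`; otherwise the reversed walks, WK5). `SEL` (with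
`m = #E` via `Fintype.equivFin`, `tok e j` = the union of the label sets of the inner objects of the walk `j` of `e`, at most
`(2t+1) b` elements, `Fb e` = the labels of all fixed objects, at most `(2 #W + 2) b`) chooses `J e`. Here `t = k + 1`. -/
def AL8_stmt : Prop := ∀ (V L : Type) [Fintype V] (b s : ℕ) (G : LG V L b s) (t q : ℕ) (H : HG)
  (φ : H.W ⊕ Bool → V) (F : Finset L),
  (∀ e, G.Str t q (φ (.inl (H.ed e).1)) (φ (.inl (H.ed e).2)) ∨
    G.Str t q (φ (.inl (H.ed e).2)) (φ (.inl (H.ed e).1))) →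
  F.card + (Fintype.card H.E + 1) * ((2 * t + 1) * b) < q →
  ∃ Q : H.E → Fin (t + 1) → V, (∀ e, Wk G.A t (Q e) ∧ Q e 0 = φ (.inl (H.ed e).1) ∧
    Q e (Fin.last t) = φ (.inl (H.ed e).2) ∧ G.Cln (Q e) ∧ ∀ o, Inn o → Disjoint (G.obj (Q e) o) F) ∧
  ∀ e e', e ≠ e' → ∀ o o' : Ob t, Inn o → Inn o' → Disjoint (G.obj (Q e) o) (G.obj (Q e') o')

/-- AL9. A conflict-free copy of `L_t(H)`: `ψ (inl x) = φ x`, `ψ (inr (e, k)) = Q e (k+1)`; then `ψ (H.pt t e i) = Q e i` for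
`0 ≤ i ≤ t`. Objects: `inl (inl x)` (labels `lv (φ x)`), `inl (inr (e, k))` (labels of the inner object `inl (k+1)` of `Q e`),
edge `inr (inl w)` (labels `le ..`), edge `inr (inr (e, i))` (object `inr i` of `Q e`). Inner objects of the same `Q e`: `Cln`;
of different `Q e`: last hypothesis; inner object against fixed object: all labels of the fixed objects are in `F`. -/
def AL9_stmt : Prop := ∀ (V L : Type) [Fintype V] (b s : ℕ) (G : LG V L b s) (t : ℕ) (H : HG)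
  (φ : H.W ⊕ Bool → V) (F : Finset L) (Q : H.E → Fin (t + 1) → V), 1 ≤ t →
  (∀ w, G.A (φ (.inr (H.col w))) (φ (.inl w))) →
  (∀ x y, x ≠ y → Disjoint (G.lv (φ x)) (G.lv (φ y))) →
  (∀ x w, Disjoint (G.lv (φ x)) (G.le (φ (.inr (H.col w))) (φ (.inl w)))) →
  (∀ w w', w ≠ w' → Disjoint (G.le (φ (.inr (H.col w))) (φ (.inl w))) (G.le (φ (.inr (H.col w'))) (φ (.inl w')))) →
  (∀ x, G.lv (φ x) ⊆ F) → (∀ w, G.le (φ (.inr (H.col w))) (φ (.inl w)) ⊆ F) →
  (∀ e, Wk G.A t (Q e) ∧ Q e 0 = φ (.inl (H.ed e).1) ∧ Q e (Fin.last t) = φ (.inl (H.ed e).2) ∧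
    G.Cln (Q e) ∧ ∀ o, Inn o → Disjoint (G.obj (Q e) o) F) →
  (∀ e e', e ≠ e' → ∀ o o' : Ob t, Inn o → Inn o' → Disjoint (G.obj (Q e) o) (G.obj (Q e') o')) →
  G.CF0 (H.Lt t)

/-- AL10 (from AL4, AL6, AL7, AL8, AL9). `q` larger than `F.card + ..` in AL8 with `F` = all labels of the fixed objects,
`#F ≤ (2 #W + 2) b`; `δ = 1 / (#W + 2)^2`, `C` from AL4, `W = Option H.W` in AL6. (`hh > 0` by `0 < C`, `0 < N`, `0 < Δ`.) -/
def AL10_stmt : Prop := ∀ (H : HG) (k b s : ℕ), Nonempty H.W → 1 ≤ k → ∃ C : ℝ, 0 < C ∧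
  ∀ (V L : Type) [Fintype V] [Fintype L] (G : LG V L b s) (Δ : ℝ), 0 < Fintype.card V → 0 < Δ →
  (∀ v, (dg G.A Finset.univ v : ℝ) ≤ Δ) → C * Fintype.card V * Δ ^ (k + 1) ≤ hh G.A (k + 1) →
  G.CF0 (H.Lt (k + 1))

/-- AL11 (from AL10). `t ≥ 2`: AL10 with `k = t - 1`. `t = 1`: `h_1 = ∑ degrees ≤ N Δ`, `C = 1`. -/
def AL11_stmt : Prop := ∀ (H : HG) (t b s : ℕ), Nonempty H.W → 1 ≤ t → ∃ C : ℝ, 0 < C ∧
  ∀ (V L : Type) [Fintype V] [Fintype L] (G : LG V L b s) (Δ : ℝ), 0 < Fintype.card V → 0 < Δ →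
  (∀ v, (dg G.A Finset.univ v : ℝ) ≤ Δ) → ¬ G.CF0 (H.Lt t) →
  hh G.A t ≤ C * Fintype.card V * Δ ^ t

/-- AL12. Sides. Let `H` have an edge `e₀`. For a copy `φ` of `L_t(H)` in `G` the colouring `c ∘ φ` of the vertices of `L_t(H)` is
proper (`G.bip`), so `c(φ w) = !c(φ (inr b))` if `w` has colour `b`, and along the path `e₀` the colour changes `t` times; so
`c ∘ φ` is determined by `c (φ (inl (inr false)))`; the same holds for `(H.Lt t).col` (and for its negation). -/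
def AL12_stmt : Prop := ∀ (V L : Type) (b s : ℕ) (G : LG V L b s) (H : HG) (t : ℕ), 1 ≤ t → Nonempty H.E →
  G.CF0 (H.Lt t) → G.CF (H.Lt t)

/-! ## CL. The closure theorem -/

/-- no edge has a label of one of its ends -/
def LG.Tdy {V L : Type} {b s : ℕ} (G : LG V L b s) : Prop := ∀ u v, G.A u v → Disjoint (G.le u v) (G.lv v)

/-- CL1. Leave out the edges `u v` with `¬ Disjoint (le u v) (lv u)` or `¬ Disjoint (le u v) (lv v)`, everything else unchanged. For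
given `v` the number of `u` with `A v u`, `¬ Disjoint (le v u) (lv v)` is at most `b s` (`G.sp`). -/
def CL1_stmt : Prop := ∀ (V L : Type) [Fintype V] (b s : ℕ) (G : LG V L b s), ∃ G' : LG V L b s, G'.Tdy ∧
  (∑ v, (dg G.A Finset.univ v : ℝ)) - 2 * (b * s) * Fintype.card V ≤ ∑ v, (dg G'.A Finset.univ v : ℝ) ∧
  ∀ H : HG, (G'.CF0 H → G.CF0 H) ∧ (G'.CF H → G.CF H)

/-- restriction to a set of vertices -/
def LG.sub {V L : Type} {b s : ℕ} (G : LG V L b s) (U : Finset V) : LG {x // x ∈ U} L b s where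
  A u v := G.A u.1 v.1
  symm u v h := G.symm u.1 v.1 h
  c v := G.c v.1
  bip u v h := G.bip u.1 v.1 h
  lv v := G.lv v.1
  le u v := G.le u.1 v.1
  lsymm u v := G.lsymm u.1 v.1
  nm v := G.nm v.1
  nmi u v h := Subtype.ext (G.nmi h)
  nmm v := G.nmm v.1
  bv v := G.bv v.1
  be u v := G.be u.1 v.1
  sp v x S h := by
    have := G.sp v.1 x (S.map (Function.Embedding.subtype _)) (by
      intro w hw
      rw [Finset.mem_map] at hw
      obtain ⟨w', hw', rfl⟩ := hw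
      exact h w' hw')
    rwa [Finset.card_map] at this

/-- CL2 (from `MD_stmt`). Regularisation for labelled graphs, `κ` from MD; `dg (G.sub U).A univ v = dg G.A U v`. -/
def CL2_stmt : Prop := ∀ a : ℝ, 0 < a → a ≤ 1 → ∃ κ : ℝ, 1 ≤ κ ∧ ∀ C₂ : ℝ, 0 < C₂ → ∃ C₁ : ℝ, 0 < C₁ ∧
  ∀ (V L : Type) [Fintype V] (b s : ℕ) (G : LG V L b s), 0 < Fintype.card V →
    C₁ * (Fintype.card V : ℝ) ^ (1 + a) ≤ ∑ v, (dg G.A Finset.univ v : ℝ) →
    ∃ (U : Finset V) (D : ℝ), U.Nonempty ∧ C₂ * (U.card : ℝ) ^ a ≤ D ∧ (G.sub U).Reg D κ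

/-- CL3. Subgraphs: conflict-free copies (with or without the condition on the sides) and `Tdy`. -/
def CL3_stmt : Prop := ∀ (V L : Type) (b s : ℕ) (G : LG V L b s) (U : Finset V),
  (G.Tdy → (G.sub U).Tdy) ∧ ∀ H : HG, ((G.sub U).CF0 H → G.CF0 H) ∧ ((G.sub U).CF H → G.CF H)

/-- CL4. Walks without conflicts, induction on `l`: a walk `P` with `l` steps without conflicts which ends in `v` can be continued by
every neighbour `w` of `v` such that neither `lv w` nor `le v w` has a label of an object of `P`: at most `b (2l+1) s` neighbours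
are excluded (`G.sp`); the new edge has no label of its ends by `Tdy` (and `lsymm`). So there are at least
`N (D - b (2l+1) s) ... ≥ N (D/2)^l`. -/
def CL4_stmt : Prop := ∀ (V L : Type) [Fintype V] (b s : ℕ) (G : LG V L b s) (l : ℕ) (D : ℝ), G.Tdy →
  (∀ v, D ≤ dg G.A Finset.univ v) → 2 * (b * (2 * l + 1) * s : ℝ) ≤ D →
  (Fintype.card V : ℝ) * (D / 2) ^ l ≤
    ((Finset.univ : Finset (Fin (l + 1) → V)).filter fun P => Wk G.A l P ∧ G.Cln P).card

/-- CL5. Roles. For `x ∈ S` the label sets `ob x o` are disjoint with at most `b` elements, so there are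
at least `#O^(#L - b #O)` maps `ρ : L → O` with `ρ z = o` for all `z ∈ ob x o` (the values on at most `b #O` labels are
prescribed). Sum over `ρ`: there is `ρ` with at least `#S / #O^(b #O)` elements. -/
def CL5_stmt : Prop := ∀ (X O L : Type) [Fintype O] [Fintype L] (S : Finset X) (ob : X → O → Finset L) (b : ℕ),
  0 < Fintype.card O → (∀ x ∈ S, (∀ o, (ob x o).card ≤ b) ∧ ∀ o o', o ≠ o' → Disjoint (ob x o) (ob x o')) →
  ∃ ρ : L → O, S.card ≤ Fintype.card O ^ (b * Fintype.card O) *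
    (S.filter fun x => ∀ o, ∀ z ∈ ob x o, ρ z = o).card

/-- bad pairs of walks with `t + 2` steps: the same ends, the same second vertex and a common label at some object after the
second vertex (not the last vertex) -/
def LG.B1 {V L : Type} {b s : ℕ} (G : LG V L b s) {t : ℕ} (P Q : Fin (t + 3) → V) : Prop :=
  P 0 = Q 0 ∧ P 1 = Q 1 ∧ P (Fin.last (t + 2)) = Q (Fin.last (t + 2)) ∧
    ∃ o : Ob (t + 1), Inn o ∧
      ¬ Disjoint (G.obj (fun i : Fin (t + 2) => P i.succ) o) (G.obj (fun i : Fin (t + 2) => Q i.succ) o)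

/-- the same for the reversed walks -/
def LG.B2 {V L : Type} {b s : ℕ} (G : LG V L b s) {t : ℕ} (P Q : Fin (t + 3) → V) : Prop :=
  G.B1 (fun i => P i.rev) (fun i => Q i.rev)

/-- CL6 (from WK2, MT7, MT8). `(P, Q)` is determined by the pair of the walks without the first vertex (they are in `PP (t+1)`) and
by the vertex `P 0 = Q 0`, a neighbour of `P 1`: at most `Δ` values. For given `o` the number of pairs in `PP (t+1)` is at
most `FF (t+1) o ≤ b s Δ h_t` by WK2 with `o' = o`; at most `2t+3` objects. For `B2` reverse the walks. -/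
def CL6_stmt : Prop := ∀ (V L : Type) [Fintype V] [Fintype L] (b s : ℕ) (G : LG V L b s) (Δ : ℝ) (t : ℕ),
  0 ≤ Δ → (∀ v, (dg G.A Finset.univ v : ℝ) ≤ Δ) →
  (((Finset.univ : Finset ((Fin (t + 3) → V) × (Fin (t + 3) → V))).filter fun q =>
    Wk G.A (t + 2) q.1 ∧ Wk G.A (t + 2) q.2 ∧ (G.B1 q.1 q.2 ∨ G.B2 q.1 q.2)).card : ℝ) ≤
    2 * (2 * t + 3) * b * s * Δ ^ 2 * hh G.A t

/-- CL7. Choice of the ends and deletion. `∑ y, (#S_y - #S / (2 #Y) - #B_y / (4 β)) ≥ #S / 4 > 0`, `S_y` = the elements with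
`en x = y`, `B_y` = the bad pairs in `S_y` (bad pairs have the same `en`). So there is `y` with
`#S_y ≥ #S / (2 #Y)` and `#B_y ≤ 4 β #S_y`; leave out the (at most `#S_y / 2`) elements with more than `8 β` bad
partners in `S_y`. -/
def CL7_stmt : Prop := ∀ (X Y : Type) [Fintype Y] (S : Finset X) (en : X → Y) (B : X → X → Prop) (β : ℝ),
  0 < β → S.Nonempty → (∀ x x', B x x' → en x = en x') →
  (((S ×ˢ S).filter fun p => B p.1 p.2).card : ℝ) ≤ β * S.card →
  ∃ (y : Y) (S' : Finset X), S' ⊆ S ∧ (∀ x ∈ S', en x = y) ∧ S.card ≤ 4 * Fintype.card Y * S'.card ∧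
    ∀ x ∈ S', ((S'.filter fun x' => B x x').card : ℝ) ≤ 8 * β

/-- the data for the auxiliary graph: a set `S` of walks with `t + 2` steps from `m` to `m'` -/
structure AD {V L : Type} {b s : ℕ} (G : LG V L b s) (t q : ℕ) (m m' : V) (ρ : L → Ob (t + 2))
    (S : Finset (Fin (t + 3) → V)) : Prop where
  walk : ∀ P ∈ S, Wk G.A (t + 2) P
  fst : ∀ P ∈ S, P 0 = m
  lst : ∀ P ∈ S, P (Fin.last (t + 2)) = m'
  role : ∀ P ∈ S, ∀ o, ∀ z ∈ G.obj P o, ρ z = o
  bad : ∀ P ∈ S, (S.filter fun Q => G.B1 P Q ∨ G.B2 P Q).card ≤ q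

/-- CL8 (from CL4, CL5, CL6, CL7). Existence of the data. `S₀` = the walks without conflicts with `t + 2` steps,
`#S₀ ≥ N (D/2)^(t+2)`; CL5 with `O = Ob (t+2)`, `#O = 2t+5`: `S₁ ⊆ S₀` with roles,
`#S₁ ≥ c N D^(t+2)`; CL6 with `Δ = κ D`: at most `C N D^(t+2) ≤ β #S₁` bad pairs; CL7 with
`en P = (P 0, P last)`, `Y = V × V`: `#S₁ ≤ 4 N^2 #S`; `q = ⌈8 β⌉₊`. -/
def CL8_stmt : Prop := ∀ (t b s : ℕ) (κ C : ℝ), 1 ≤ κ → 0 < C → ∃ (q : ℕ) (c D₀ : ℝ), 0 < q ∧ 0 < c ∧ 0 < D₀ ∧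
  ∀ (V L : Type) [Fintype V] [Fintype L] (G : LG V L b s) (D : ℝ), 0 < Fintype.card V → G.Tdy → G.Reg D κ →
  D₀ ≤ D → hh G.A t ≤ C * Fintype.card V * (κ * D) ^ t →
  ∃ (m m' : V) (ρ : L → Ob (t + 2)) (S : Finset (Fin (t + 3) → V)), AD G t q m m' ρ S ∧
    c * D ^ (t + 2) ≤ Fintype.card V * (S.card : ℝ)

section aux

variable {V L : Type} {b s : ℕ} (G : LG V L b s) {t : ℕ} (m m' : V) (ρ : L → Ob (t + 2))
  (S : Finset (Fin (t + 3) → V))

/-- `P ∈ S` has second vertex `x` and last but one vertex `y` -/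
def Bt (x y : V) (P : Fin (t + 3) → V) : Prop := P ∈ S ∧ P 1 = x ∧ P (Fin.last (t + 1)).castSucc = y

/-- adjacency in the auxiliary graph -/
def aA (x y : V) : Prop := (∃ P, Bt S x y P) ∨ ∃ P, Bt S y x P

/-- the chosen walk, directed from `x` to `y` -/
def aw (x y : V) : Fin (t + 3) → V :=
  if h : ∃ P, Bt S x y P then h.choose
  else if h : ∃ P, Bt S y x P then fun i => h.choose i.rev else fun _ => x

/-- sides -/
def ac (x : V) : Bool := !decide (ρ (G.nm x) = .inl 1)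

/-- labels of vertices -/
def alv (x : V) : Finset L := if ρ (G.nm x) = .inl 1 then G.lv x ∪ G.le m x else G.lv x ∪ G.le m' x

/-- the part of the chosen walk from `x` to `y` -/
def aP (x y : V) : Fin (t + 1) → V := fun i => aw S x y i.succ.castSucc

/-- labels of edges: the inner objects of the part from `x` to `y` -/
def ale (x y : V) : Finset L :=
  if aA S x y then (Finset.univ.filter fun o : Ob t => Inn o).biUnion fun o => G.obj (aP S x y) o else ∅

/-- vertices of the auxiliary graph -/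
def aU [Fintype V] : Finset V :=
  Finset.univ.filter fun x => (∃ P ∈ S, P 1 = x) ∨ ∃ P ∈ S, P (Fin.last (t + 1)).castSucc = x

end aux

/-- AX1. Basic facts: `ac`, direction of the chosen walk. For `P ∈ S`: `ρ (nm (P 1)) = inl 1` and
`ρ (nm (P (t+1))) = inl (t+1)` (`nmm`, role), and `1 ≠ t + 1`; so `Bt x y P` and `Bt y x Q` exclude each other. -/
def AX1_stmt : Prop := ∀ (V L : Type) [Fintype V] (b s : ℕ) (G : LG V L b s) (t q : ℕ) (m m' : V)
  (ρ : L → Ob (t + 2)) (S : Finset (Fin (t + 3) → V)), 1 ≤ t → AD G t q m m' ρ S →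
  (∀ P ∈ S, ac G ρ (P 1) = false ∧ ac G ρ (P (Fin.last (t + 1)).castSucc) = true) ∧
  (∀ x ∈ aU S, ac G ρ x = false → ∃ P ∈ S, P 1 = x) ∧
  (∀ x ∈ aU S, ac G ρ x = true → ∃ P ∈ S, P (Fin.last (t + 1)).castSucc = x) ∧
  (∀ x y, aA S x y → ac G ρ x ≠ ac G ρ y ∧ x ∈ aU S ∧ y ∈ aU S) ∧
  (∀ x y, aA S x y → aA S y x) ∧
  (∀ x y, aA S x y → ac G ρ x = false → Bt S x y (aw S x y)) ∧
  (∀ x y, aA S x y → ac G ρ x = true → Bt S y x (fun i => aw S x y i.rev)) ∧
  ∀ x y, aA S x y → aw S y x = fun i => aw S x y i.rev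

/-- AX2 (from AX1, WK5). The part `aP x y` is a walk with `t` steps from `x` to `y`; all labels of its object `o` have the same role
`r o`, and the roles of different objects are different and not `inl 0`, `inl (last)`, nor the role of the first two or the last two
objects of the whole walk if `o` is inner: if `ac x = false` the role of `inl i` is `inl (i+1)`, of `inr j` it is `inr (j+1)`;
if `ac x = true`: `inl (i+1).rev`, `inr (j+1).rev`. -/
def AX2_stmt : Prop := ∀ (V L : Type) [Fintype V] (b s : ℕ) (G : LG V L b s) (t q : ℕ) (m m' : V)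
  (ρ : L → Ob (t + 2)) (S : Finset (Fin (t + 3) → V)), 1 ≤ t → AD G t q m m' ρ S → ∀ x y, aA S x y →
  Wk G.A t (aP S x y) ∧ aP S x y 0 = x ∧ aP S x y (Fin.last t) = y ∧
  (ac G ρ x = false → (∀ i, ∀ z ∈ G.obj (aP S x y) (.inl i), ρ z = .inl i.succ.castSucc) ∧
    ∀ j, ∀ z ∈ G.obj (aP S x y) (.inr j), ρ z = .inr j.succ.castSucc) ∧
  (ac G ρ x = true → (∀ i, ∀ z ∈ G.obj (aP S x y) (.inl i), ρ z = .inl i.succ.castSucc.rev) ∧
    ∀ j, ∀ z ∈ G.obj (aP S x y) (.inr j), ρ z = .inr j.succ.castSucc.rev) ∧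
  G.Cln (aP S x y)

/-- AX3 (from AX1, AX2, WK5). `ale` is symmetric (`aP y x` is the reversed walk), it has at most `(2t+1) b` elements, `alv` at
most `2 b`. -/
def AX3_stmt : Prop := ∀ (V L : Type) [Fintype V] (b s : ℕ) (G : LG V L b s) (t q : ℕ) (m m' : V)
  (ρ : L → Ob (t + 2)) (S : Finset (Fin (t + 3) → V)), 1 ≤ t → AD G t q m m' ρ S →
  (∀ x y, ale G S x y = ale G S y x) ∧ (∀ x y, (ale G S x y).card ≤ (2 * t + 3) * b) ∧
  ∀ x, (alv G m m' ρ x).card ≤ (2 * t + 3) * b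

/-- AX4 (from AX1, AX2). Local sparsity. Let `x` be given, `ac x = false`, and `z` a label. For every `y ∈ Y` the chosen walk
`P_y = aw x y ∈ S` has second vertex `x`, and `z` is a label of one of its objects after the second vertex (a vertex `2..t+1` or an
edge `1..t+1`; the labels of `le m' y` are those of the last edge, `y` is the vertex `t+1`), always the same one (role of `z`). So all
`P_y` are bad partners (`B1`) of one of them, and `y ↦ P_y` is injective: at most `q`. If `ac x = true` the same for the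
reversed walks with `B2`. -/
def AX4_stmt : Prop := ∀ (V L : Type) [Fintype V] (b s : ℕ) (G : LG V L b s) (t q : ℕ) (m m' : V)
  (ρ : L → Ob (t + 2)) (S : Finset (Fin (t + 3) → V)), 1 ≤ t → AD G t q m m' ρ S →
  ∀ (x : V) (z : L) (Y : Finset V), (∀ y ∈ Y, aA S x y ∧ (z ∈ alv G m m' ρ y ∨ z ∈ ale G S x y)) → Y.card ≤ q

/-- AX5 (from AX1). Numbers. `aU` is the union of a set of neighbours of `m` and a set of neighbours of `m'`. Walks in `S` with the
same second and the same last but one vertex are bad partners (`B1`: the name of the vertex `t + 1`), so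
`#S ≤ q #{(x, y) : ∃ P, Bt x y P} ≤ q ∑ degrees`. -/
def AX5_stmt : Prop := ∀ (V L : Type) [Fintype V] (b s : ℕ) (G : LG V L b s) (t q : ℕ) (m m' : V)
  (ρ : L → Ob (t + 2)) (S : Finset (Fin (t + 3) → V)) (Δ : ℝ), 1 ≤ t → AD G t q m m' ρ S →
  (∀ v, (dg G.A Finset.univ v : ℝ) ≤ Δ) → ((aU S).card : ℝ) ≤ 2 * Δ ∧
  (S.card : ℝ) ≤ q * ∑ v : {x // x ∈ aU S}, (dg (fun x y : {x // x ∈ aU S} => aA S x.1 y.1) Finset.univ v : ℝ)

/-- AX6 (from AX1, AX2). Lifting. `ψ (inl (inl w)) = φ w`, `ψ (inl (inr β)) = m` or `m'`, such that `ψ (inl (inr (col w)))` is joined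
to `φ w` (`m` to the `x` with `ac x = false`, `m'` to the others), `ψ (inr (e, k)) = aP (φ (ed e).1) (φ (ed e).2) (k+1)`; then
`ψ (H.pt t e i) = aP .. i` for `0 ≤ i ≤ t`. Conflicts: the labels of `φ w` and of the edge to `m` or `m'` are in `alv (φ w)`, those of
the inner objects of the path `e` in `ale ..`; for different elements of `W ⊕ E` these sets are disjoint. In the same
set: `φ w` and its edge have different roles (`inl 1`, `inr 0` or `inl (t+1)`, `inr (t+1)`); inner objects of one path: `Cln` in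
AX2. The labels of `m`, `m'` have the roles `inl 0`, `inl (last)`, all others have other roles (AX2). -/
def AX6_stmt : Prop := ∀ (V L : Type) [Fintype V] (b s : ℕ) (G : LG V L b s) (t q : ℕ) (m m' : V)
  (ρ : L → Ob (t + 2)) (S : Finset (Fin (t + 3) → V)) (H : HG) (φ : H.W → V), 1 ≤ t → AD G t q m m' ρ S →
  S.Nonempty → (∀ w, φ w ∈ aU S) → (∀ e, aA S (φ (H.ed e).1) (φ (H.ed e).2)) →
  (∀ w w', w ≠ w' → Disjoint (alv G m m' ρ (φ w)) (alv G m m' ρ (φ w'))) →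
  (∀ w e, Disjoint (alv G m m' ρ (φ w)) (ale G S (φ (H.ed e).1) (φ (H.ed e).2))) →
  (∀ e e', e ≠ e' → Disjoint (ale G S (φ (H.ed e).1) (φ (H.ed e).2)) (ale G S (φ (H.ed e').1) (φ (H.ed e').2))) →
  ((∀ w, ac G ρ (φ w) = H.col w) ∨ ∀ w, ac G ρ (φ w) = !H.col w) → G.CF0 (H.Lt t)

/-- CL9 (from AX1, AX3, AX4, AX5, AX6). The auxiliary graph is an `LG` on `{x // x ∈ aU S}` with the names of `G`
(`nmm`: `nm x ∈ lv x ⊆ alv x`). -/
def CL9_stmt : Prop := ∀ (V L : Type) [Fintype V] (b s : ℕ) (G : LG V L b s) (t q : ℕ) (m m' : V)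
  (ρ : L → Ob (t + 2)) (S : Finset (Fin (t + 3) → V)) (Δ : ℝ), 1 ≤ t → AD G t q m m' ρ S → S.Nonempty →
  (∀ v, (dg G.A Finset.univ v : ℝ) ≤ Δ) →
  ∃ (U : Finset V) (G' : LG {x // x ∈ U} L ((2 * t + 3) * b) q), U.Nonempty ∧ (U.card : ℝ) ≤ 2 * Δ ∧
    (S.card : ℝ) ≤ q * ∑ v, (dg G'.A Finset.univ v : ℝ) ∧ ∀ H : HG, G'.CF H → G.CF0 (H.Lt t)

/-- CL10. Exponents, `κ = t + 1 - a`, `K' N^(1/κ) ≤ D`: `N ≤ (D/K')^κ`, so `D^(t+2)/N ≥ K'^κ D^(1+a)`, and
`D ≥ U/(2k)`. -/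
def CL10_stmt : Prop := ∀ (t : ℕ) (a K k c : ℝ), 1 ≤ t → 0 ≤ a → a < 1 → 0 < K → 1 ≤ k → 0 < c →
  ∃ K' : ℝ, 0 < K' ∧ ∀ N U D : ℝ, 1 ≤ N → 0 < U → U ≤ 2 * (k * D) →
  K' * N ^ (1 / ((t : ℝ) + 1 - a)) ≤ D → K * U ^ (1 + a) ≤ c * (D ^ (t + 2) / N)

/-- THM1 (from CL1, CL2, CL3, AL11, AL12, CL8, CL9, CL10). The closure theorem. `α = 1/(t+1-a) ∈ (0, 1]`. Given `b`, `s`: `κ` from CL2,
`C` from AL11 for `H`, `t`, `b`, `s`; `q`, `c`, `D₀` from CL8; `K_H` from `ST H a` for `(2t+3) b`, `q`; `K'` from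
CL10 with `K = K_H`, `k = κ`, `c/q`, enlarged such that `K' ≥ D₀` (CL10 remains true for larger `K'`); `C₁` from CL2 for `C₂ = K'`;
`K = C₁ + 2 b s`. CL1: `G'` tidy with `∑ deg ≥ C₁ N^(1+α)`; CL2: `U`, `D`; `G₁ = G'.sub U`. If `¬ CF0 (H.Lt t)` in `G₁` then
AL11 with `Δ = κ D`, CL8, CL9, CL10 and `ST H a` give `G''.CF H`, so `CF0 (H.Lt t)` in `G₁`. Then CL3, CL1 and AL12. -/
def THM1_stmt : Prop := ∀ (H : HG) (t : ℕ) (a : ℝ), 1 ≤ t → 0 ≤ a → a < 1 → Nonempty H.E → ST H a →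
  ST (H.Lt t) (1 / ((t : ℝ) + 1 - a))

/-- STAR (from CL1). The power of the star: a root joined to `p` inner vertices. `K = 2 b s + b (2p+1) s + 1`. CL1 gives `G'` with
a vertex `v` with more than `b (2p+1) s` neighbours; choose `w_1, .., w_p` one after the other: `lv w` and `le v w` have no label of
`v` and of the vertices `w_i` and edges `v w_i` already chosen (each of these at most `b (2p+1)` labels excludes at most `s`
neighbours); the edge `v w` has no label of `w` and `v` by `Tdy`. (If `p = 0` take `v`.) Sides: `c v = false` or `true`, all neighbours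
have the other side. -/
def STAR_stmt : Prop := ∀ p : ℕ, ST (starT.pwH p) 0

/-- SUB. Parts of a graph (`EmbH`): restrict the copy; an edge of `H₁` may be mapped to an edge in the other direction
(`G.symm`, `G.lsymm`). -/
def SUB_stmt : Prop := ∀ (H₁ H₂ : HG) (a : ℝ), EmbH H₁ H₂ → ST H₂ a → ST H₁ a

end

end Pool.Agent.F2
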